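import Mathlib

open MvPolynomial

namespace Pool.Agent.Results.MP_3c244b_ag.Yes

/-- the value at `(z, w)` of the binary form of degree `n` with coefficients `c` -/
def form {R : Type} [CommRing R] (n : ℕ) (c : Fin (n + 1) → R) (z w : R) : R :=
  ∑ i : Fin (n + 1), c i * z ^ (n - i.val) * w ^ i.val

/-- the weighted sextic `y^2 - (x^3 + A(z,w) x + B(z,w))` in the variables `x, y, z, w` of
weights `2, 3, 1, 1` -/
noncomputable def sextic (a : Fin 5 → ℂ) (b : Fin 7 → ℂ) : MvPolynomial (Fin 4) ℂ :=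
  X 1 ^ 2 - (X 0 ^ 3 + form 4 (fun i => C (a i)) (X 2) (X 3) * X 0 +
    form 6 (fun i => C (b i)) (X 2) (X 3))

/-- Jacobian criterion: the sextic surface in `P(2,3,1,1)` is smooth, so it is a del Pezzo
surface of degree one -/
def Smooth (a : Fin 5 → ℂ) (b : Fin 7 → ℂ) : Prop :=
  ∀ p : Fin 4 → ℂ, p ≠ 0 → eval p (sextic a b) = 0 → ∃ i, eval p (pderiv i (sextic a b)) ≠ 0

/-- the exceptional curves of the surface: the curves `x = Q(z,w)`, `y = C(z,w)` with `Q`
quadratic and `C` cubic that lie on it -/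
def IsExc (a : Fin 5 → ℂ) (b : Fin 7 → ℂ) (e : (Fin 3 → ℂ) × (Fin 4 → ℂ)) : Prop :=
  ∀ z w : ℂ, form 3 e.2 z w ^ 2 = form 2 e.1 z w ^ 3 + form 4 a z w * form 2 e.1 z w + form 6 b z w

def LiesOn (p : Fin 4 → ℂ) (e : (Fin 3 → ℂ) × (Fin 4 → ℂ)) : Prop :=
  p 0 = form 2 e.1 (p 2) (p 3) ∧ p 1 = form 3 e.2 (p 2) (p 3)

/-- a point of the surface lying on exactly ten exceptional curves -/
def Eckardt (a : Fin 5 → ℂ) (b : Fin 7 → ℂ) (p : Fin 4 → ℂ) : Prop :=
  p ≠ 0 ∧ eval p (sextic a b) = 0 ∧ {e | IsExc a b e ∧ LiesOn p e}.ncard = 10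

/-- the two coordinate vectors give the same point of `P(2,3,1,1)` -/
def SamePt (p q : Fin 4 → ℂ) : Prop :=
  ∃ c : ℂ, c ≠ 0 ∧ q 0 = c ^ 2 * p 0 ∧ q 1 = c ^ 3 * p 1 ∧ q 2 = c * p 2 ∧ q 3 = c * p 3

def a0 : Fin 5 → ℂ := ![-2, -4, -6, -4, -2]
def b0 : Fin 7 → ℂ := ![0, 0, 2, 4, 2, 0, 0]

theorem coeffs (d0 d1 d2 d3 d4 d5 d6 : ℂ)
    (h : ∀ z : ℂ, d0 + d1 * z + d2 * z ^ 2 + d3 * z ^ 3 + d4 * z ^ 4 + d5 * z ^ 5 + d6 * z ^ 6 = 0) :
    d0 = 0 ∧ d1 = 0 ∧ d2 = 0 ∧ d3 = 0 ∧ d4 = 0 ∧ d5 = 0 ∧ d6 = 0 := by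
  refine ⟨?_, ?_, ?_, ?_, ?_, ?_, ?_⟩
  · linear_combination (1/1) * h (0)
  · linear_combination (-1/60) * h (-3) + (3/20) * h (-2) + (-3/4) * h (-1) + (3/4) * h (1) + (-3/20) * h (2) + (1/60) * h (3)
  · linear_combination (1/180) * h (-3) + (-3/40) * h (-2) + (3/4) * h (-1) + (-49/36) * h (0) + (3/4) * h (1) + (-3/40) * h (2) + (1/180) * h (3)
  · linear_combination (1/48) * h (-3) + (-1/6) * h (-2) + (13/48) * h (-1) + (-13/48) * h (1) + (1/6) * h (2) + (-1/48) * h (3)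
  · linear_combination (-1/144) * h (-3) + (1/12) * h (-2) + (-13/48) * h (-1) + (7/18) * h (0) + (-13/48) * h (1) + (1/12) * h (2) + (-1/144) * h (3)
  · linear_combination (-1/240) * h (-3) + (1/60) * h (-2) + (-1/48) * h (-1) + (1/48) * h (1) + (-1/60) * h (2) + (1/240) * h (3)
  · linear_combination (1/720) * h (-3) + (-1/120) * h (-2) + (1/48) * h (-1) + (-1/36) * h (0) + (1/48) * h (1) + (-1/120) * h (2) + (1/720) * h (3)

theorem smooth0 : Smooth a0 b0 := by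
  intro p hp _
  by_contra hc
  push Not at hc
  have e0 := hc 0
  have e1 := hc 1
  have e2 := hc 2
  have e3 := hc 3
  simp [sextic, form, a0, b0, Fin.sum_univ_succ, pderiv_X, Pi.single_apply,
    Derivation.leibniz_pow] at e0 e1 e2 e3
  obtain ⟨x, hx⟩ : ∃ x, x = p 0 := ⟨_, rfl⟩
  obtain ⟨z, hz⟩ : ∃ z, z = p 2 := ⟨_, rfl⟩
  obtain ⟨w, hw⟩ : ∃ w, w = p 3 := ⟨_, rfl⟩
  rw [← hx, ← hz, ← hw] at e0 e2 e3
  have h0 : (3) * x^2 * z^0 * w^0 + (-2) * x^0 * z^4 * w^0 + (-4) * x^0 * z^3 * w^1 + (-6) * x^0 * z^2 * w^2 + (-4) * x^0 * z^1 * w^3 + (-2) * x^0 * z^0 * w^4 = 0 := by linear_combination (-1 : ℂ) * e0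
  have h1 : (-8) * x^1 * z^3 * w^0 + (-12) * x^1 * z^2 * w^1 + (-12) * x^1 * z^1 * w^2 + (-4) * x^1 * z^0 * w^3 + (8) * x^0 * z^3 * w^2 + (12) * x^0 * z^2 * w^3 + (4) * x^0 * z^1 * w^4 = 0 := by linear_combination (-1 : ℂ) * e2
  have h2 : (-4) * x^1 * z^3 * w^0 + (-12) * x^1 * z^2 * w^1 + (-12) * x^1 * z^1 * w^2 + (-8) * x^1 * z^0 * w^3 + (4) * x^0 * z^4 * w^1 + (12) * x^0 * z^3 * w^2 + (8) * x^0 * z^2 * w^3 = 0 := by linear_combination (-1 : ℂ) * e3
  have z0 : z ^ 11 = 0 := by linear_combination ((-32/25) * x^0 * z^1 * w^6 + (-96/25) * x^0 * z^2 * w^5 + (-58/25) * x^0 * z^3 * w^4 + (44/25) * x^0 * z^4 * w^3 + (191/50) * x^0 * z^5 * w^2 + (23/10) * x^0 * z^6 * w^1 + (-1/2) * x^0 * z^7 * w^0) * h0 + ((-16/25) * x^0 * z^0 * w^6 + (-48/25) * x^0 * z^1 * w^5 + (-3547/1200) * x^0 * z^2 * w^4 + (-8789/2400) * x^0 * z^3 * w^3 + (-2843/800) * x^0 * z^4 * w^2 + (-627/400) * x^0 * z^5 * w^1 + (-13/40) * x^0 * z^6 * w^0 + (-917/1200)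 * x^1 * z^0 * w^4 + (-1387/2400) * x^1 * z^1 * w^3 + (911/2400) * x^1 * z^2 * w^2 + (183/160) * x^1 * z^3 * w^1 + (-3/16) * x^1 * z^4 * w^0) * h1 + ((8/25) * x^0 * z^0 * w^6 + (2539/2400) * x^0 * z^1 * w^5 + (211/96) * x^0 * z^2 * w^4 + (851/200) * x^0 * z^3 * w^3 + (199/50) * x^0 * z^4 * w^2 + (54/25) * x^0 * z^5 * w^1 + (13/20) * x^0 * z^6 * w^0 + (917/2400) * x^1 * z^0 * w^4 + (917/2400) * x^1 * z^1 * w^3 + (-1831/2400) * x^1 * z^2 * w^2) * h2
  have w0 : w ^ 11 = 0 := by linear_combination ((-1/2) * x^0 * z^0 * w^7 + (23/10) * x^0 * z^1 * w^6 + (191/50) * x^0 * z^2 * w^5 + (44/25) * x^0 * z^3 * w^4 + (-58/25) * x^0 * z^4 * w^3 + (-96/25) * x^0 * z^5 * w^2 + (-32/25) * x^0 * z^6 * w^1) * h0 + ((13/20) * x^0 * z^0 * w^6 + (54/25) * x^0 * z^1 * w^5 + (2047/600) * x^0 * z^2 * w^4 + (25/6) * x^0 * z^3 * w^3 + (153/50) * x^0 * z^4 * w^2 + (36/25) * x^0 * z^5 * w^1 + (8/25) * x^0 * z^6 * w^0 + (341/600) * x^1 * z^0 * w^4 +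 (53/600) * x^1 * z^1 * w^3 + (-317/300) * x^1 * z^2 * w^2 + (-12/25) * x^1 * z^3 * w^1) * h1 + ((-13/40) * x^0 * z^0 * w^6 + (-77/60) * x^0 * z^1 * w^5 + (-37/12) * x^0 * z^2 * w^4 + (-106/25) * x^0 * z^3 * w^3 + (-93/25) * x^0 * z^4 * w^2 + (-48/25) * x^0 * z^5 * w^1 + (-16/25) * x^0 * z^6 * w^0 + (-283/600) * x^1 * z^0 * w^4 + (101/150) * x^1 * z^1 * w^3 + (101/150) * x^1 * z^2 * w^2) * h2
  have z1 : z = 0 := pow_eq_zero_iff (by norm_num) |>.mp z0
  have w1 : w = 0 := pow_eq_zero_iff (by norm_num) |>.mp w0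
  have x0 : x ^ 2 = 0 := by rw [z1, w1] at h0; linear_combination (1 / 3 : ℂ) * h0
  have x1 : x = 0 := pow_eq_zero_iff (by norm_num) |>.mp x0
  apply hp
  funext i
  fin_cases i
  · exact hx ▸ x1
  · exact e1
  · exact hz ▸ z1
  · exact hw ▸ w1

noncomputable def r2 : ℂ := (Real.sqrt 2 : ℝ)

theorem r2_sq : r2 ^ 2 = 2 := by
  unfold r2
  rw [← Complex.ofReal_pow, Real.sq_sqrt (by norm_num)]
  norm_num

/-- parameters `(l, c0, c1, c2)` -/
def mk1 (t : ℂ × ℂ × ℂ × ℂ) : (Fin 3 → ℂ) × (Fin 4 → ℂ) :=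
  (![t.1, 0, 0], ![t.2.1, t.2.2.1, t.2.2.2, 0])

def mk2 (t : ℂ × ℂ × ℂ × ℂ) : (Fin 3 → ℂ) × (Fin 4 → ℂ) :=
  (![0, 0, t.1], ![0, t.2.2.2, t.2.2.1, t.2.1])

def Sol (t : ℂ × ℂ × ℂ × ℂ) : Prop :=
  t.2.2.2 ^ 2 = 2 - 2 * t.1 ∧ 2 * t.2.2.1 * t.2.2.2 = 4 - 4 * t.1 ∧
  t.2.2.1 ^ 2 + 2 * t.2.1 * t.2.2.2 = 2 - 6 * t.1 ∧ 2 * t.2.1 * t.2.2.1 = -4 * t.1 ∧
  t.2.1 ^ 2 = t.1 ^ 3 - 2 * t.1

open Complex in
noncomputable def sols : Finset (ℂ × ℂ × ℂ × ℂ) := by
  classical
  exact {(0, 0, r2, r2), (0, 0, -r2, -r2), (-1, 1, 2, 2), (-1, -1, -2, -2),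
    (1, I, 2 * I, 0), (1, -I, -2 * I, 0), (1 + I, -2 * I, 1 - I, 1 - I),
    (1 + I, 2 * I, -1 + I, -1 + I), (1 - I, 2 * I, 1 + I, 1 + I), (1 - I, -2 * I, -1 - I, -1 - I)}

theorem sols_card : sols.card = 10 := by
  have h : (0 : ℝ) < Real.sqrt 2 := by positivity
  have h' : Real.sqrt 2 ≠ -Real.sqrt 2 := by linarith
  unfold sols
  repeat rw [Finset.card_insert_of_notMem]
  · rfl
  all_goals
    simp [Complex.ext_iff, r2, h']
    try norm_num

open Complex in
theorem sol_iff (t : ℂ × ℂ × ℂ × ℂ) : Sol t ↔ t ∈ sols := by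
  obtain ⟨l, c0, c1, c2⟩ := t
  have hr := r2_sq
  have hI := I_sq
  unfold sols Sol
  simp only [Finset.mem_insert, Finset.mem_singleton, Prod.mk.injEq]
  constructor
  · rintro ⟨h1, h2, h3, h4, h5⟩
    by_cases hc : c2 = 0
    · subst hc
      have hl : l = 1 := by linear_combination (1 / 2 : ℂ) * h1
      subst hl
      have : (c0 - I) * (c0 + I) = 0 := by linear_combination h5 - hI
      rcases mul_eq_zero.mp this with k | k
      · have k0 : c0 = I := by linear_combination k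
        subst k0
        have : c1 = 2 * I := by linear_combination (-I / 2) * h4 + c1 * hI
        simp [this]
      · have k0 : c0 = -I := by linear_combination k
        subst k0
        have : c1 = -2 * I := by linear_combination (I / 2) * h4 + c1 * hI
        simp [this]
    · have e1 : c1 = c2 := by
        apply mul_left_cancel₀ hc
        linear_combination (1 / 2 : ℂ) * h2 - h1
      subst e1
      have e2 : c0 * c1 = -2 * l := by linear_combination (1 / 2 : ℂ) * h4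
      have e3 : l * (l + 1) * (l - (1 + I)) * (l - (1 - I)) = 0 := by
        linear_combination (-1 / 2 : ℂ) * (c0 * c1 - 2 * l) * e2 + (1 / 2 : ℂ) * c0 ^ 2 * h1 +
          (1 - l) * h5 - l * (l + 1) * hI
      rcases mul_eq_zero.mp e3 with k | k
      · rcases mul_eq_zero.mp k with k | k
        · rcases mul_eq_zero.mp k with k | k
          · subst k
            have k0 : c0 = 0 := by
              apply mul_right_cancel₀ hc
              linear_combination e2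
            have : (c1 - r2) * (c1 + r2) = 0 := by linear_combination h1 - hr
            rcases mul_eq_zero.mp this with j | j
            · have : c1 = r2 := by linear_combination j
              simp [k0, this]
            · have : c1 = -r2 := by linear_combination j
              simp [k0, this]
          · have hl : l = -1 := by linear_combination k
            subst hl
            have : (c1 - 2) * (c1 + 2) = 0 := by linear_combination h1
            rcases mul_eq_zero.mp this with j | j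
            · have j1 : c1 = 2 := by linear_combination j
              subst j1
              have : c0 = 1 := by linear_combination (1 / 2 : ℂ) * e2
              simp [this]
            · have j1 : c1 = -2 := by linear_combination j
              subst j1
              have : c0 = -1 := by linear_combination (-1 / 2 : ℂ) * e2
              simp [this]
        · have hl : l = 1 + I := by linear_combination k
          subst hl
          have : (c1 - (1 - I)) * (c1 - (-1 + I)) = 0 := by linear_combination h1 - hI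
          rcases mul_eq_zero.mp this with j | j
          · have j1 : c1 = 1 - I := by linear_combination j
            subst j1
            have : c0 = -2 * I := by
              linear_combination ((1 + I) / 2) * e2 + (c0 / 2 - 1) * hI
            simp [this]
          · have j1 : c1 = -1 + I := by linear_combination j
            subst j1
            have : c0 = 2 * I := by
              linear_combination (-(1 + I) / 2) * e2 + (c0 / 2 + 1) * hI
            simp [this]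
      · have hl : l = 1 - I := by linear_combination k
        subst hl
        have : (c1 - (1 + I)) * (c1 - (-1 - I)) = 0 := by linear_combination h1 - hI
        rcases mul_eq_zero.mp this with j | j
        · have j1 : c1 = 1 + I := by linear_combination j
          subst j1
          have : c0 = 2 * I := by
            linear_combination ((1 - I) / 2) * e2 + (c0 / 2 - 1) * hI
          simp [this]
        · have j1 : c1 = -1 - I := by linear_combination j
          subst j1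
          have : c0 = -2 * I := by
            linear_combination (-(1 - I) / 2) * e2 + (c0 / 2 + 1) * hI
          simp [this]
  · rintro (h | h | h | h | h | h | h | h | h | h) <;> obtain ⟨rfl, rfl, rfl, rfl⟩ := h <;>
      refine ⟨?_, ?_, ?_, ?_, ?_⟩ <;> grind

theorem set1 : {e | IsExc a0 b0 e ∧ LiesOn ![0, 0, 0, 1] e} = mk1 '' (sols : Set _) := by
  ext ⟨q, c⟩
  simp only [Set.mem_ofPred_eq, Set.mem_image, Finset.mem_coe, ← sol_iff]
  constructor
  · rintro ⟨h, l1, l2⟩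
    simp [form, Fin.sum_univ_succ] at l1 l2
    have h' := coeffs 0 (2 * q 1) (c 2 ^ 2 - (2 - 2 * q 0 - 4 * q 1))
      (2 * c 1 * c 2 - (4 - 4 * q 0 - 6 * q 1 + q 1 ^ 3))
      (c 1 ^ 2 + 2 * c 0 * c 2 - (2 - 6 * q 0 - 4 * q 1 + 3 * q 0 * q 1 ^ 2))
      (2 * c 0 * c 1 - (-4 * q 0 - 2 * q 1 + 3 * q 0 ^ 2 * q 1))
      (c 0 ^ 2 - (q 0 ^ 3 - 2 * q 0)) (fun z => by
        have := h z 1
        simp [form, Fin.sum_univ_succ, a0, b0, ← l1, ← l2] at this
        linear_combination this)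
    obtain ⟨_, k1, k2, k3, k4, k5, k6⟩ := h'
    have q1 : q 1 = 0 := by linear_combination (1 / 2 : ℂ) * k1
    rw [q1] at k2 k3 k4 k5
    refine ⟨(q 0, c 0, c 1, c 2), ⟨by linear_combination k2, by linear_combination k3,
      by linear_combination k4, by linear_combination k5, by linear_combination k6⟩, ?_⟩
    unfold mk1
    ext i
    · fin_cases i <;> simp [q1, ← l1]
    · fin_cases i <;> simp [← l2]
  · rintro ⟨⟨l, c0, c1, c2⟩, ⟨h1, h2, h3, h4, h5⟩, e⟩
    rw [← e]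
    simp only at h1 h2 h3 h4 h5
    refine ⟨fun z w => ?_, ?_⟩
    · simp [form, Fin.sum_univ_succ, a0, b0, mk1]
      linear_combination z ^ 2 * w ^ 4 * h1 + z ^ 3 * w ^ 3 * h2 + z ^ 4 * w ^ 2 * h3 +
        z ^ 5 * w * h4 + z ^ 6 * h5
    · simp [LiesOn, form, Fin.sum_univ_succ, mk1]

theorem set2 : {e | IsExc a0 b0 e ∧ LiesOn ![0, 0, 1, 0] e} = mk2 '' (sols : Set _) := by
  ext ⟨q, c⟩
  simp only [Set.mem_ofPred_eq, Set.mem_image, Finset.mem_coe, ← sol_iff]
  constructor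
  · rintro ⟨h, l1, l2⟩
    simp [form, Fin.sum_univ_succ] at l1 l2
    have h' := coeffs 0 (2 * q 1) (c 1 ^ 2 - (2 - 2 * q 2 - 4 * q 1))
      (2 * c 2 * c 1 - (4 - 4 * q 2 - 6 * q 1 + q 1 ^ 3))
      (c 2 ^ 2 + 2 * c 3 * c 1 - (2 - 6 * q 2 - 4 * q 1 + 3 * q 2 * q 1 ^ 2))
      (2 * c 3 * c 2 - (-4 * q 2 - 2 * q 1 + 3 * q 2 ^ 2 * q 1))
      (c 3 ^ 2 - (q 2 ^ 3 - 2 * q 2)) (fun z => by
        have := h 1 z
        simp [form, Fin.sum_univ_succ, a0, b0, ← l1, ← l2] at this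
        linear_combination this)
    obtain ⟨_, k1, k2, k3, k4, k5, k6⟩ := h'
    have q1 : q 1 = 0 := by linear_combination (1 / 2 : ℂ) * k1
    rw [q1] at k2 k3 k4 k5
    refine ⟨(q 2, c 3, c 2, c 1), ⟨by linear_combination k2, by linear_combination k3,
      by linear_combination k4, by linear_combination k5, by linear_combination k6⟩, ?_⟩
    unfold mk2
    ext i
    · fin_cases i <;> simp [q1, ← l1]
    · fin_cases i <;> simp [← l2]
  · rintro ⟨⟨l, c0, c1, c2⟩, ⟨h1, h2, h3, h4, h5⟩, e⟩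
    rw [← e]
    simp only at h1 h2 h3 h4 h5
    refine ⟨fun z w => ?_, ?_⟩
    · simp [form, Fin.sum_univ_succ, a0, b0, mk2]
      linear_combination w ^ 2 * z ^ 4 * h1 + w ^ 3 * z ^ 3 * h2 + w ^ 4 * z ^ 2 * h3 +
        w ^ 5 * z * h4 + w ^ 6 * h5
    · simp [LiesOn, form, Fin.sum_univ_succ, mk2]

theorem mk1_inj : Function.Injective mk1 := by
  rintro ⟨l, c0, c1, c2⟩ ⟨l', d0, d1, d2⟩ h
  simpa [mk1] using h

theorem mk2_inj : Function.Injective mk2 := by
  rintro ⟨l, c0, c1, c2⟩ ⟨l', d0, d1, d2⟩ h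
  simp [mk2] at h
  simp [h]

theorem result : ∃ (a : Fin 5 → ℂ) (b : Fin 7 → ℂ), Smooth a b ∧
    ∃ p q : Fin 4 → ℂ, Eckardt a b p ∧ Eckardt a b q ∧ ¬ SamePt p q := by
  refine ⟨a0, b0, smooth0, ![0, 0, 0, 1], ![0, 0, 1, 0], ⟨?_, ?_, ?_⟩, ⟨?_, ?_, ?_⟩, ?_⟩
  · intro h; simpa using congrFun h 3
  · simp [sextic, form, a0, b0, Fin.sum_univ_succ]
  · rw [set1, Set.ncard_image_of_injective _ mk1_inj, Set.ncard_coe_finset, sols_card]
  · intro h; simpa using congrFun h 2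
  · simp [sextic, form, a0, b0, Fin.sum_univ_succ]
  · rw [set2, Set.ncard_image_of_injective _ mk2_inj, Set.ncard_coe_finset, sols_card]
  · rintro ⟨c, _, _, _, h, _⟩
    simp at h

end Pool.Agent.Results.MP_3c244b_ag.Yes
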